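import Pool.Agent.Work.MP_63c7e0_lc.Main

open Pool.Agent.Lib.ZFModel Pool.Agent.Work.MP_63c7e0_lc

/-- There is a model of ZF containing a zero-dimensional `T₁`-space that is the union of a
sequence of `2`-embedded `ℕ`-compact subspaces but is not `ℕ`-compact. -/
theorem Pool.Agent.Results.MP_63c7e0_lc.NotZFTheorem.result :
    ∃ (M : Type 1) (E : M → M → Prop), IsZF E ∧
      ∃ X τ : M, IsTop E X τ ∧ ZeroDim E X τ ∧ IsT1 E X τ ∧ IsCountableUnion E X τ ∧
        ¬ NCompact E X τ := by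
  obtain ⟨M, E, zf, ⟨cd⟩⟩ := exists_cohen
  obtain ⟨τ, hτ⟩ := exists_tau zf cd
  exact ⟨M, E, zf, cd.w, τ, isTop hτ, zeroDim zf hτ, isT1 zf hτ, isCountableUnion zf hτ,
    not_nCompact zf hτ⟩
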